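import Pool.Agent.W838.DC.Stm3
import Pool.Agent.W838.DC.Basic

/-!
# Part NL
-/

set_option autoImplicit false

namespace Pool.Agent.W73.DC

open Pool.Agent.W838.DC Pool.Agent.W838.DC.Sys

variable {V X : Type*} [AddCommGroup V] {σ : Sys V X}

/-- two roots above `x` whose sum is a root have inner product `-1` -/
theorem ip_of_add {c d : V} (hc : c ∈ σ.Φ) (hd : d ∈ σ.Φ) (h : c + d ∈ σ.Φ) : σ.ip c d = -1 := by
  have h1 := σ.ip_self _ h
  rw [σ.ip_add, σ.ip_add_right, σ.ip_add_right, σ.ip_self c hc, σ.ip_self d hd,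
    σ.ip_symm d c] at h1
  omega

/-- if the top of the plane is in the region, so are the two upper neighbours -/
theorem psi_of_top {x : X} {c d : V} (hc : σ.R x c) (hd : σ.R x d) (hi : σ.ip c d = -1)
    (hP : σ.P (σ.r (c + d) x)) : σ.Psi x c := by
  refine ⟨hc, ?_⟩
  have hi' : σ.ip d c = -1 := by rw [σ.ip_symm]; exact hi
  have h1 : σ.R (σ.r c x) d := by
    refine ⟨hd.1, hd.2.1, ?_⟩
    rw [σ.lab_r_neg hc.1 x hi, map_add]
    have := hc.2.2
    have := hd.2.2
    omega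
  have h2 : σ.R (σ.r d (σ.r c x)) c := by
    refine ⟨hc.1, hc.2.1, ?_⟩
    rw [σ.lab_r_neg hd.1 _ hi', σ.lab_r_neg hc.1 x hi, σ.lab_r_self hc.1]
    simp only [map_add, map_neg]
    have := hd.2.2
    omega
  have h3 : σ.r c (σ.r d (σ.r c x)) = σ.r (c + d) x := by
    rw [σ.r_conj_neg hc.1 hd.1 hi, σ.r_r hc.1]
  rw [← h3] at hP
  exact σ.P_of_R h1 (σ.P_of_R h2 hP)

theorem C6_symm {x : X} {c b : V} (h : σ.C6 x c b) : σ.C6 x b c := by
  refine ⟨h.2.1, h.1, ?_, ?_⟩
  · rw [σ.ip_symm]; exact h.2.2.1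
  · rw [add_comm]; exact h.2.2.2

theorem nl (σ : Sys V X) (hC : S_CLM σ) (hF : S_F1 σ) : S_NL σ := by
  intro h hp x hx
  have hcl := hC h hp x hx
  suffices H : ∀ k : ℕ, ∀ z b, (σ.ht (σ.lab x z)).toNat = k → σ.Arr x z b →
      ∃ z', σ.Psi x z' ∧ Indec σ x z' ∧ h x b < h x z' from
    fun z b hz => H _ z b rfl hz
  intro k
  induction k using Nat.strong_induction_on with
  | _ k ih =>
    intro z b hk hz
    by_cases hI : Indec σ x z
    · exact ⟨z, hz.1, hI, lt_of_lt_of_le (hcl.P1 z b hz) (hp.step x z b hz)⟩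
    · unfold Indec at hI
      push Not at hI
      obtain ⟨c, d, hc, hd, rfl⟩ := hI
      have hmem : c + d ∈ σ.Φ := hz.1.1.1
      have hi := ip_of_add hc.1 hd.1 hmem
      have hPt := hz.1.2
      have h1 : σ.Psi x c := psi_of_top hc hd hi hPt
      have h2 : σ.Psi x d := by
        apply psi_of_top hd hc
        · rw [σ.ip_symm]; exact hi
        · rw [add_comm]; exact hPt
      have h6 : σ.C6 x c d := ⟨h1, h2, hi, hPt⟩
      have hl : σ.ht (σ.lab x (c + d)) = σ.ht (σ.lab x c) + σ.ht (σ.lab x d) := by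
        rw [map_add, map_add]
      have hc0 := hc.2.2
      have hd0 := hd.2.2
      have kc : (σ.ht (σ.lab x c)).toNat < k := by omega
      have kd : (σ.ht (σ.lab x d)).toNat < k := by omega
      rcases hF x hx c d b h6 hz with h3 | h3 | ⟨h3, h4⟩ | ⟨h3, h4⟩
      · exact ih _ kc c b rfl h3
      · exact ih _ kd d b rfl h3
      · obtain ⟨z', h5, h7, h8⟩ := ih _ kd d (b + c) rfl h4
        exact ⟨z', h5, h7, lt_of_le_of_lt (hcl.C9 b c (C6_symm h3)) h8⟩
      · obtain ⟨z', h5, h7, h8⟩ := ih _ kc c (b + d) rfl h4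
        exact ⟨z', h5, h7, lt_of_le_of_lt (hcl.C9 b d (C6_symm h3)) h8⟩

end Pool.Agent.W73.DC
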